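import Pool.Agent.Helper70.BI.HH.StHC

/-!
# Project BI, stage 7, module CUB: the value of squares vanishes on the boundary of a cube
-/

set_option autoImplicit false

open scoped Topology unitInterval
open Set

namespace Pool.Agent.Helper70.HH

namespace CUBH

/-- clamp to the unit interval -/
noncomputable def cl (x : ℝ) : I := projIcc (0 : ℝ) 1 zero_le_one x

theorem continuous_cl : Continuous cl := continuous_projIcc (h := zero_le_one)

theorem cl_coe (x : I) : cl (x : ℝ) = x := projIcc_val zero_le_one x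

theorem cl_le (x : ℝ) (h : x ≤ 0) : cl x = 0 := projIcc_of_le_left zero_le_one h

theorem cl_ge (x : ℝ) (h : 1 ≤ x) : cl x = 1 := projIcc_of_right_le zero_le_one h

theorem cl_val (x : ℝ) (h0 : 0 ≤ x) (h1 : x ≤ 1) : ((cl x : I) : ℝ) = x := by
  unfold cl
  rw [coe_projIcc, min_eq_right h1, max_eq_right h0]

section cc

variable {E : Type} [NormedAddCommGroup E] [NormedSpace ℝ E]

/-- concatenation -/
noncomputable def ct (p q : C(I, E)) : C(I, E) :=
  ⟨fun t => p (cl (2 * (t : ℝ))) + q (cl (2 * (t : ℝ) - 1)) - q 0, by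
    have h := continuous_cl
    have h1 : Continuous fun t : I => cl (2 * (t : ℝ)) := h.comp (by fun_prop)
    have h2 : Continuous fun t : I => cl (2 * (t : ℝ) - 1) := h.comp (by fun_prop)
    exact ((p.continuous.comp h1).add (q.continuous.comp h2)).sub continuous_const⟩

theorem ct_apply (p q : C(I, E)) (t : I) :
    ct p q t = p (cl (2 * (t : ℝ))) + q (cl (2 * (t : ℝ) - 1)) - q 0 := rfl

/-- the linear path -/
noncomputable def sg (a b : E) : C(I, E) :=
  ⟨fun t => (1 - (t : ℝ)) • a + (t : ℝ) • b, by fun_prop⟩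

theorem sg_apply (a b : E) (t : I) : sg a b t = (1 - (t : ℝ)) • a + (t : ℝ) • b := rfl

/-- the broken path -/
noncomputable def s2 (a b c : E) : C(I, E) := ct (sg a b) (sg b c)

theorem sg_zero (a b : E) : sg a b 0 = a := by
  rw [sg_apply, Icc.coe_zero, sub_zero, one_smul, zero_smul, add_zero]

theorem sg_one (a b : E) : sg a b 1 = b := by
  rw [sg_apply, Icc.coe_one, sub_self, one_smul, zero_smul, zero_add]

theorem ct_zero (p q : C(I, E)) : ct p q 0 = p 0 := by
  rw [ct_apply, Icc.coe_zero, cl_le _ (by norm_num), cl_le _ (by norm_num), add_sub_cancel_right]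

theorem ct_one (p q : C(I, E)) (h : p 1 = q 0) : ct p q 1 = q 1 := by
  rw [ct_apply, Icc.coe_one, cl_ge _ (by norm_num), cl_ge _ (by norm_num), h]
  abel

theorem ct_hl (p q : C(I, E)) : (ct p q).comp hl = p := by
  ext t
  show ct p q (hl t) = p t
  have e : ((hl t : I) : ℝ) = (t : ℝ) / 2 := rfl
  rw [ct_apply, e, show 2 * ((t : ℝ) / 2) = t by ring, cl_coe, cl_le _ (by linarith [t.2.2]),
    add_sub_cancel_right]

theorem ct_hr (p q : C(I, E)) (h : p 1 = q 0) : (ct p q).comp hr = q := by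
  ext t
  show ct p q (hr t) = q t
  have e : ((hr t : I) : ℝ) = (1 + (t : ℝ)) / 2 := rfl
  rw [ct_apply, e, show 2 * ((1 + (t : ℝ)) / 2) - 1 = t by ring, cl_coe,
    cl_ge _ (by linarith [t.2.1]), h]
  abel

theorem ct_phi (p q r : C(I, E)) (h1 : p 1 = q 0) (_h2 : q 1 = r 0) :
    (ct (ct p q) r).comp phiI = ct p (ct q r) := by
  ext t
  show ct (ct p q) r (phiI t) = ct p (ct q r) t
  have e : ((phiI t : I) : ℝ) = phi t := rfl
  have t0 := t.2.1
  have t1 := t.2.2
  rw [ct_apply (ct p q) r, ct_apply p (ct q r), e, ct_zero q r]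
  by_cases h : (t : ℝ) ≤ 1 / 2
  · have hp : phi t = t / 2 := if_pos h
    rw [hp, show 2 * ((t : ℝ) / 2) = t by ring, cl_coe, cl_le ((t : ℝ) - 1) (by linarith),
      cl_le (2 * (t : ℝ) - 1) (by linarith), ct_zero, ct_apply p q, cl_le (2 * (t : ℝ) - 1) (by linarith)]
    abel
  · by_cases h' : (t : ℝ) ≤ 3 / 4
    · have hp : phi t = t - 1 / 4 := by unfold phi; rw [if_neg h, if_pos h']
      have e1 : ct p q (cl (2 * ((t : ℝ) - 1 / 4))) = q (cl (4 * (t : ℝ) - 2)) := by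
        rw [ct_apply, cl_val _ (by linarith) (by linarith),
          cl_ge (2 * (2 * ((t : ℝ) - 1 / 4))) (by linarith), h1,
          show 2 * (2 * ((t : ℝ) - 1 / 4)) - 1 = 4 * (t : ℝ) - 2 by ring]
        abel
      have e2 : ct q r (cl (2 * (t : ℝ) - 1)) = q (cl (4 * (t : ℝ) - 2)) := by
        rw [ct_apply, cl_val _ (by linarith) (by linarith),
          cl_le (2 * (2 * (t : ℝ) - 1) - 1) (by linarith),
          show 2 * (2 * (t : ℝ) - 1) = 4 * (t : ℝ) - 2 by ring]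
        abel
      rw [hp, e1, e2, cl_le (2 * ((t : ℝ) - 1 / 4) - 1) (by linarith),
        cl_ge (2 * (t : ℝ)) (by linarith), h1]
      abel
    · have hp : phi t = 2 * t - 1 := by unfold phi; rw [if_neg h, if_neg h']
      have e2 : ct q r (cl (2 * (t : ℝ) - 1)) = q 1 + r (cl (4 * (t : ℝ) - 3)) - r 0 := by
        rw [ct_apply, cl_val _ (by linarith) (by linarith),
          cl_ge (2 * (2 * (t : ℝ) - 1)) (by linarith),
          show 2 * (2 * (t : ℝ) - 1) - 1 = 4 * (t : ℝ) - 3 by ring]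
      rw [hp, e2, cl_ge (2 * (2 * (t : ℝ) - 1)) (by linarith), ct_one p q h1,
        show 2 * (2 * (t : ℝ) - 1) - 1 = 4 * (t : ℝ) - 3 by ring,
        cl_ge (2 * (t : ℝ)) (by linarith), h1]
      abel

theorem s2_zero (a b c : E) : s2 a b c 0 = a := by
  unfold s2
  rw [ct_zero, sg_zero]

theorem s2_one (a b c : E) : s2 a b c 1 = c := by
  unfold s2
  rw [ct_one _ _ (by rw [sg_one, sg_zero]), sg_one]

/-- `(x y z) u` -/
noncomputable def pl (x y z u : E) : C(I, E) := ct (s2 x y z) (sg z u)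

/-- `x (y z u)` -/
noncomputable def pr (x y z u : E) : C(I, E) := ct (sg x y) (s2 y z u)

theorem pl_zero (x y z u : E) : pl x y z u 0 = x := by
  unfold pl
  rw [ct_zero, s2_zero]

theorem pl_one (x y z u : E) : pl x y z u 1 = u := by
  unfold pl
  rw [ct_one _ _ (by rw [s2_one, sg_zero]), sg_one]

theorem pr_zero (x y z u : E) : pr x y z u 0 = x := by
  unfold pr
  rw [ct_zero, sg_zero]

theorem pr_one (x y z u : E) : pr x y z u 1 = u := by
  unfold pr
  rw [ct_one _ _ (by rw [s2_zero, sg_one]), s2_one]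

/-- the laws of module WWL in a convenient form -/
structure Laws {V : Type} [AddCommGroup V] (W : C(I, E) → C(I, E) → V) (vv : C(I, E) → V) :
    Prop where
  w1 : ∀ p q r, Same p q → Same q r → W p r = W p q + W q r
  w2 : ∀ p q p' q', Same p p' → Same q q' → p 1 = q 0 →
    W (ct p q) (ct p' q') = W p p' + W q q' + vv (ct p' q') - vv (ct p q)
  w3 : ∀ p q r, p 1 = q 0 → q 1 = r 0 → W (ct (ct p q) r) (ct p (ct q r)) =
    vv (ct q r) + vv (ct p (ct q r)) - vv (ct p q) - vv (ct (ct p q) r)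
  w5 : ∀ p, W p p = 0

section laws

variable {V : Type} [AddCommGroup V] {W : C(I, E) → C(I, E) → V} {vv : C(I, E) → V}

theorem same_ll (x y z y' z' u : E) : Same (pl x y z u) (pl x y' z' u) :=
  ⟨by rw [pl_zero, pl_zero], by rw [pl_one, pl_one]⟩

theorem same_lr (x y z y' z' u : E) : Same (pl x y z u) (pr x y' z' u) :=
  ⟨by rw [pl_zero, pr_zero], by rw [pl_one, pr_one]⟩

theorem same_rl (x y z y' z' u : E) : Same (pr x y z u) (pl x y' z' u) :=
  ⟨by rw [pl_zero, pr_zero], by rw [pl_one, pr_one]⟩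

theorem same_rr (x y z y' z' u : E) : Same (pr x y z u) (pr x y' z' u) :=
  ⟨by rw [pr_zero, pr_zero], by rw [pr_one, pr_one]⟩

theorem st3 (L : Laws W vv) (x y z u : E) : W (pl x y z u) (pr x y z u) =
    vv (s2 y z u) + vv (pr x y z u) - vv (s2 x y z) - vv (pl x y z u) :=
  L.w3 (sg x y) (sg y z) (sg z u) (by rw [sg_one, sg_zero]) (by rw [sg_one, sg_zero])

theorem st3' (L : Laws W vv) (x y z u : E) : W (pr x y z u) (pl x y z u) =
    -(vv (s2 y z u) + vv (pr x y z u) - vv (s2 x y z) - vv (pl x y z u)) := by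
  have h := L.w1 (pl x y z u) (pr x y z u) (pl x y z u) (same_lr _ _ _ _ _ _)
    (same_rl _ _ _ _ _ _)
  rw [L.w5, st3 L] at h
  exact eq_neg_of_add_eq_zero_right h.symm

theorem st2r (L : Laws W vv) (x y z z' u : E) : W (pr x y z u) (pr x y z' u) =
    W (s2 y z u) (s2 y z' u) + vv (pr x y z' u) - vv (pr x y z u) := by
  have h := L.w2 (sg x y) (s2 y z u) (sg x y) (s2 y z' u) ⟨rfl, rfl⟩
    ⟨by rw [s2_zero, s2_zero], by rw [s2_one, s2_one]⟩ (by rw [sg_one, s2_zero])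
  rw [L.w5, zero_add] at h
  exact h

theorem st2l (L : Laws W vv) (x y y' z u : E) : W (pl x y z u) (pl x y' z u) =
    W (s2 x y z) (s2 x y' z) + vv (pl x y' z u) - vv (pl x y z u) := by
  have h := L.w2 (s2 x y z) (sg z u) (s2 x y' z) (sg z u)
    ⟨by rw [s2_zero, s2_zero], by rw [s2_one, s2_one]⟩ ⟨rfl, rfl⟩ (by rw [s2_one, sg_zero])
  rw [L.w5, add_zero] at h
  exact h

/-- the value of the face with the corners `a`, `b`, `b'`, `d` -/
noncomputable def fc (W : C(I, E) → C(I, E) → V) (vv : C(I, E) → V) (a b b' d : E) : V :=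
  W (s2 a b d) (s2 a b' d) + vv (s2 a b d) - vv (s2 a b' d)

theorem hexagon (L : Laws W vv) (o a b c ab ac bc d : E) :
    fc W vv a ab ac d + fc W vv o a c ac + fc W vv c ac bc d =
      fc W vv o a b ab + fc W vv b ab bc d + fc W vv o b c bc := by
  have e1 := L.w1 (pl o a ab d) (pr o a ab d) (pr o c bc d) (same_lr _ _ _ _ _ _)
    (same_rr _ _ _ _ _ _)
  have e2 := L.w1 (pr o a ab d) (pr o a ac d) (pr o c bc d) (same_rr _ _ _ _ _ _)
    (same_rr _ _ _ _ _ _)
  have e3 := L.w1 (pr o a ac d) (pl o a ac d) (pr o c bc d) (same_rl _ _ _ _ _ _)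
    (same_lr _ _ _ _ _ _)
  have e4 := L.w1 (pl o a ac d) (pl o c ac d) (pr o c bc d) (same_ll _ _ _ _ _ _)
    (same_lr _ _ _ _ _ _)
  have e5 := L.w1 (pl o c ac d) (pr o c ac d) (pr o c bc d) (same_lr _ _ _ _ _ _)
    (same_rr _ _ _ _ _ _)
  have f1 := L.w1 (pl o a ab d) (pl o b ab d) (pr o c bc d) (same_ll _ _ _ _ _ _)
    (same_lr _ _ _ _ _ _)
  have f2 := L.w1 (pl o b ab d) (pr o b ab d) (pr o c bc d) (same_lr _ _ _ _ _ _)
    (same_rr _ _ _ _ _ _)
  have f3 := L.w1 (pr o b ab d) (pr o b bc d) (pr o c bc d) (same_rr _ _ _ _ _ _)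
    (same_rr _ _ _ _ _ _)
  have f4 := L.w1 (pr o b bc d) (pl o b bc d) (pr o c bc d) (same_rl _ _ _ _ _ _)
    (same_lr _ _ _ _ _ _)
  have f5 := L.w1 (pl o b bc d) (pl o c bc d) (pr o c bc d) (same_ll _ _ _ _ _ _)
    (same_lr _ _ _ _ _ _)
  have key : W (pl o a ab d) (pr o c bc d) =
      (vv (s2 a ab d) + vv (pr o a ab d) - vv (s2 o a ab) - vv (pl o a ab d)) +
      ((W (s2 a ab d) (s2 a ac d) + vv (pr o a ac d) - vv (pr o a ab d)) +
      (-(vv (s2 a ac d) + vv (pr o a ac d) - vv (s2 o a ac) - vv (pl o a ac d)) +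
      ((W (s2 o a ac) (s2 o c ac) + vv (pl o c ac d) - vv (pl o a ac d)) +
      ((vv (s2 c ac d) + vv (pr o c ac d) - vv (s2 o c ac) - vv (pl o c ac d)) +
      (W (s2 c ac d) (s2 c bc d) + vv (pr o c bc d) - vv (pr o c ac d)))))) := by
    rw [e1, e2, e3, e4, e5, st3 L o a ab d, st2r L o a ab ac d, st3' L o a ac d,
      st2l L o a c ac d, st3 L o c ac d, st2r L o c ac bc d]
  have key' : W (pl o a ab d) (pr o c bc d) =
      (W (s2 o a ab) (s2 o b ab) + vv (pl o b ab d) - vv (pl o a ab d)) +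
      ((vv (s2 b ab d) + vv (pr o b ab d) - vv (s2 o b ab) - vv (pl o b ab d)) +
      ((W (s2 b ab d) (s2 b bc d) + vv (pr o b bc d) - vv (pr o b ab d)) +
      (-(vv (s2 b bc d) + vv (pr o b bc d) - vv (s2 o b bc) - vv (pl o b bc d)) +
      ((W (s2 o b bc) (s2 o c bc) + vv (pl o c bc d) - vv (pl o b bc d)) +
      (vv (s2 c bc d) + vv (pr o c bc d) - vv (s2 o c bc) - vv (pl o c bc d)))))) := by
    rw [f1, f2, f3, f4, f5, st2l L o a b ab d, st3 L o b ab d, st2r L o b ab bc d,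
      st3' L o b bc d, st2l L o b c bc d, st3 L o c bc d]
  have fin := key.symm.trans key'
  unfold fc
  rw [← sub_eq_zero] at fin ⊢
  rw [← fin]
  abel

end laws

theorem s2_sq (a b b' d : E) (hd : d = b + (b' - a)) (t : I) :
    s2 a b d t = a + ((brm t).1 : ℝ) • (b - a) + ((brm t).2 : ℝ) • (b' - a) := by
  have t0 := t.2.1
  have t1 := t.2.2
  have e1 : ((cl (2 * (t : ℝ)) : I) : ℝ) = ((brm t).1 : ℝ) := by
    show ((cl (2 * (t : ℝ)) : I) : ℝ) = min 1 (2 * (t : ℝ))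
    unfold cl
    rw [coe_projIcc]
    exact max_eq_right (le_min zero_le_one (by linarith))
  have e2 : ((cl (2 * (t : ℝ) - 1) : I) : ℝ) = ((brm t).2 : ℝ) := by
    show ((cl (2 * (t : ℝ) - 1) : I) : ℝ) = max 0 (2 * (t : ℝ) - 1)
    unfold cl
    rw [coe_projIcc, min_eq_right (by linarith)]
  unfold s2
  rw [ct_apply, sg_zero, sg_apply, sg_apply, e1, e2, hd]
  module

theorem face {X V : Type} [TopologicalSpace X] [AddCommGroup V] (w : C(I × I, X) → V)
    (v : C(I, X) → V) (Φ : C(E, X)) (S : C(I × I, X)) (a b b' d : E) (hd : d = b + (b' - a))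
    (hS : ∀ x y : I, S (x, y) = Φ (a + (x : ℝ) • (b - a) + (y : ℝ) • (b' - a))) :
    aa w v S = fc (fun p q => w (Φ.comp (lnm p q))) (fun p => v (Φ.comp p)) a b b' d := by
  have hd' : d = b' + (b - a) := by rw [hd]; abel
  have l1 : ∀ t : I, s2 a b d t = a + ((brm t).1 : ℝ) • (b - a) + ((brm t).2 : ℝ) • (b' - a) :=
    s2_sq a b b' d hd
  have l2 : ∀ t : I, s2 a b' d t = a + ((brm t).2 : ℝ) • (b - a) + ((brm t).1 : ℝ) • (b' - a) := by
    intro t
    rw [s2_sq a b' b d hd' t]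
    abel
  have k1 : S.comp brm = Φ.comp (s2 a b d) := by
    ext t
    show S (brm t) = Φ (s2 a b d t)
    rw [l1]
    exact hS _ _
  have k2 : S.comp ltm = Φ.comp (s2 a b' d) := by
    ext t
    show S ((brm t).2, (brm t).1) = Φ (s2 a b' d t)
    rw [l2]
    exact hS _ _
  have k3 : S.comp cellm = Φ.comp (lnm (s2 a b d) (s2 a b' d)) := by
    ext z
    show S (cellm z) = Φ ((1 - (z.1 : ℝ)) • s2 a b d z.2 + (z.1 : ℝ) • s2 a b' d z.2)
    have e1 : ((cellm z).1 : ℝ) = (1 - (z.1 : ℝ)) * (brm z.2).1 + (z.1 : ℝ) * (brm z.2).2 := rfl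
    have e2 : ((cellm z).2 : ℝ) = (1 - (z.1 : ℝ)) * (brm z.2).2 + (z.1 : ℝ) * (brm z.2).1 := rfl
    have e : S (cellm z) = S ((cellm z).1, (cellm z).2) := rfl
    rw [e, hS, l1, l2, e1, e2]
    congr 1
    module
  unfold aa fc
  rw [k1, k2, k3]

end cc

/-- the extension of `C` to `ℝ × (ℝ × ℝ)` -/
noncomputable def ext3 {X : Type} [TopologicalSpace X] (C : C(I × (I × I), X)) :
    C(ℝ × (ℝ × ℝ), X) :=
  ⟨fun e => C (cl e.1, (cl e.2.1, cl e.2.2)), by
    have h := continuous_cl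
    exact C.continuous.comp ((h.comp continuous_fst).prodMk
      ((h.comp (continuous_fst.comp continuous_snd)).prodMk
        (h.comp (continuous_snd.comp continuous_snd))))⟩

theorem ext3_eq {X : Type} [TopologicalSpace X] (C : C(I × (I × I), X)) (x y z : I)
    (e : ℝ × (ℝ × ℝ)) (h1 : e.1 = (x : ℝ)) (h2 : e.2.1 = (y : ℝ)) (h3 : e.2.2 = (z : ℝ)) :
    C (x, (y, z)) = ext3 C e := by
  show C (x, (y, z)) = C (cl e.1, (cl e.2.1, cl e.2.2))
  rw [h1, h2, h3, cl_coe, cl_coe, cl_coe]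

theorem laws_of (hWWL : StWWL) {X : Type} [TopologicalSpace X] {V : Type} [AddCommGroup V]
    {w : C(I × I, X) → V} {v : C(I, X) → V} (hU : IsU X V w v) {E : Type}
    [NormedAddCommGroup E] [NormedSpace ℝ E] (Φ : C(E, X)) :
    Laws (fun p q : C(I, E) => w (Φ.comp (lnm p q))) (fun p => v (Φ.comp p)) := by
  obtain ⟨-, h1, h2, h3, h5⟩ := hWWL X V w v hU E Φ
  refine ⟨h1, ?_, ?_, h5⟩
  · intro p q p' q' hp hq h
    have h' : p' 1 = q' 0 := by rw [← hp.2, ← hq.1, h]
    have hs : Same (ct p q) (ct p' q') :=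
      ⟨by rw [ct_zero, ct_zero, hp.1], by rw [ct_one p q h, ct_one p' q' h', hq.2]⟩
    have hm : ct p q mid = ct p' q' mid := by
      have e : ((mid : I) : ℝ) = 1 / 2 := rfl
      rw [ct_apply, ct_apply, e, cl_ge (2 * (1 / 2 : ℝ)) (by norm_num),
        cl_le (2 * (1 / 2 : ℝ) - 1) (by norm_num), add_sub_cancel_right, add_sub_cancel_right,
        hp.2]
    have k := h2 (ct p q) (ct p' q') hs hm
    rw [ct_hl, ct_hl, ct_hr p q h, ct_hr p' q' h'] at k
    exact k
  · intro p q r hp hq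
    have k := h3 (ct (ct p q) r)
    rw [ct_phi p q r hp hq, ct_hr p (ct q r) (by rw [ct_zero, hp]), ct_hl] at k
    exact k

end CUBH

open CUBH

theorem m_CUB (hWWL : StWWL) : StCUB := by
  intro X _ V _ w v hU C
  have L := laws_of hWWL hU (ext3 C)
  have H := hexagon L (0, (0, 0)) (1, (0, 0)) (0, (1, 0)) (0, (0, 1)) (1, (1, 0)) (1, (0, 1))
    (0, (1, 1)) (1, (1, 1))
  have X1 : aa w v (C.comp (fx 1)) = fc (fun p q => w ((ext3 C).comp (lnm p q)))
      (fun p => v ((ext3 C).comp p)) (1, (0, 0)) (1, (1, 0)) (1, (0, 1)) (1, (1, 1)) := by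
    refine face w v (ext3 C) _ _ _ _ _ (by ext <;> norm_num) ?_
    intro x y
    refine ext3_eq C 1 x y _ ?_ ?_ ?_ <;> simp
  have X0 : aa w v (C.comp (fx 0)) = fc (fun p q => w ((ext3 C).comp (lnm p q)))
      (fun p => v ((ext3 C).comp p)) (0, (0, 0)) (0, (1, 0)) (0, (0, 1)) (0, (1, 1)) := by
    refine face w v (ext3 C) _ _ _ _ _ (by ext <;> norm_num) ?_
    intro x y
    refine ext3_eq C 0 x y _ ?_ ?_ ?_ <;> simp
  have Y1 : aa w v (C.comp (fy 1)) = fc (fun p q => w ((ext3 C).comp (lnm p q)))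
      (fun p => v ((ext3 C).comp p)) (0, (1, 0)) (1, (1, 0)) (0, (1, 1)) (1, (1, 1)) := by
    refine face w v (ext3 C) _ _ _ _ _ (by ext <;> norm_num) ?_
    intro x y
    refine ext3_eq C x 1 y _ ?_ ?_ ?_ <;> simp
  have Y0 : aa w v (C.comp (fy 0)) = fc (fun p q => w ((ext3 C).comp (lnm p q)))
      (fun p => v ((ext3 C).comp p)) (0, (0, 0)) (1, (0, 0)) (0, (0, 1)) (1, (0, 1)) := by
    refine face w v (ext3 C) _ _ _ _ _ (by ext <;> norm_num) ?_
    intro x y
    refine ext3_eq C x 0 y _ ?_ ?_ ?_ <;> simp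
  have Z1 : aa w v (C.comp (fz 1)) = fc (fun p q => w ((ext3 C).comp (lnm p q)))
      (fun p => v ((ext3 C).comp p)) (0, (0, 1)) (1, (0, 1)) (0, (1, 1)) (1, (1, 1)) := by
    refine face w v (ext3 C) _ _ _ _ _ (by ext <;> norm_num) ?_
    intro x y
    refine ext3_eq C x y 1 _ ?_ ?_ ?_ <;> simp
  have Z0 : aa w v (C.comp (fz 0)) = fc (fun p q => w ((ext3 C).comp (lnm p q)))
      (fun p => v ((ext3 C).comp p)) (0, (0, 0)) (1, (0, 0)) (0, (1, 0)) (1, (1, 0)) := by
    refine face w v (ext3 C) _ _ _ _ _ (by ext <;> norm_num) ?_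
    intro x y
    refine ext3_eq C x y 0 _ ?_ ?_ ?_ <;> simp
  rw [X1, X0, Y1, Y0, Z1, Z0]
  rw [← sub_eq_zero] at H
  rw [← H]
  abel

end Pool.Agent.Helper70.HH
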